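import Pool.Agent.H567.PP.All3
import Pool.Graph.R_seed8.R460.GS.Conv

/-!
# Equations `± p ± q + c r = d` in small primes, moduli up to `x ^ (4 / 5 - ρ)`

The choice of the parameters and the counting; adapted from the library module `R460/BK/One` (level `7 / 10`, existence
of a solution).
-/

set_option autoImplicit false

namespace Pool.Agent.H567.BK

open Finset
open Pool.Agent.H560R3.GB (sing)
open Pool.Agent.Y614.GJ.Core (ev_log)
open Pool.Agent.W93.PG (cnt)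
open Pool.Agent.H567.PP (rad)

/-- Chebyshev lower bound -/
lemma theta_lower : ∃ n0 : ℕ, ∀ n : ℕ, n0 ≤ n → (0.6 : ℝ) * n ≤ Chebyshev.theta (n : ℝ) := by
  obtain ⟨K1, h1⟩ := Filter.eventually_atTop.1 (ev_log 2 (s := 1 / 2) (by norm_num) 60)
  refine ⟨max 2 K1, fun n hn => ?_⟩
  have hn2 : 2 ≤ n := (le_max_left _ _).trans hn
  obtain ⟨e1, e2⟩ := h1 n ((le_max_right _ _).trans hn)
  rw [← Real.sqrt_eq_rpow] at e2
  have h2 : 60 * Real.log n ≤ √(n : ℝ) := by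
    have : 60 * Real.log n ≤ Real.log n ^ 2 := by nlinarith
    linarith
  have hn0 : (2 : ℝ) ≤ n := by exact_mod_cast hn2
  have h3 := Chebyshev.theta_ge n
  have hs : Real.sqrt n * Real.sqrt n = n := Real.mul_self_sqrt (by linarith)
  have hs1 : 1 ≤ Real.sqrt n := by
    rw [Real.one_le_sqrt]; linarith
  have hlog : 0 ≤ Real.log n := Real.log_nonneg (by linarith)
  have h4 : Real.log ((n : ℝ) + 1) ≤ 2 * Real.log n := by
    rw [← Real.log_rpow (by linarith)]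
    apply Real.log_le_log (by linarith)
    rw [Real.rpow_two]
    nlinarith
  have h5 : 0.69 < Real.log 2 := by linarith [Real.log_two_gt_d9]
  have h6 : 60 * Real.log n * Real.sqrt n ≤ n := by
    calc 60 * Real.log n * Real.sqrt n ≤ Real.sqrt n * Real.sqrt n := by
          apply mul_le_mul_of_nonneg_right h2 (Real.sqrt_nonneg _)
      _ = n := hs
  have h7 : Real.log n ≤ Real.log n * Real.sqrt n := by nlinarith
  nlinarith

/-- number of primes in `(y, 3y]` -/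
lemma many_primes : ∃ n0 : ℕ, ∀ y : ℕ, n0 ≤ y →
    (y : ℝ) / 3 ≤ (((Ioc y (3 * y)).filter Nat.Prime).card : ℝ) * Real.log (3 * y) := by
  obtain ⟨n0, h0⟩ := theta_lower
  refine ⟨max 2 n0, fun y hy => ?_⟩
  have hy2 : 2 ≤ y := (le_max_left _ _).trans hy
  have hy0 : n0 ≤ y := (le_max_right _ _).trans hy
  have h1 := h0 (3 * y) (by omega)
  have h2 : Chebyshev.theta (y : ℝ) ≤ Real.log 4 * y := Chebyshev.theta_le_log4_mul_x (by positivity)
  have h3 : Real.log 4 < 1.39 := by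
    rw [show (4 : ℝ) = 2 ^ 2 by norm_num, Real.log_pow]
    have := Real.log_two_lt_d9
    push_cast
    linarith
  have h4 : Chebyshev.theta ((3 * y : ℕ) : ℝ) ≤ Chebyshev.theta (y : ℝ) +
      (((Ioc y (3 * y)).filter Nat.Prime).card : ℝ) * Real.log (3 * y) := by
    have e1 : Chebyshev.theta ((3 * y : ℕ) : ℝ) =
        Chebyshev.theta (y : ℝ) + ∑ q ∈ (Ioc y (3 * y)).filter Nat.Prime, Real.log q := by
      rw [Chebyshev.theta, Chebyshev.theta, Nat.floor_natCast, Nat.floor_natCast, sum_filter,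
        sum_filter, sum_filter, Finset.sum_Ioc_consecutive _ (by omega) (by omega)]
    rw [e1]
    gcongr
    rw [← nsmul_eq_mul]
    apply sum_le_card_nsmul
    intro q hq
    simp only [mem_filter, mem_Ioc] at hq
    apply Real.log_le_log
    · exact_mod_cast hq.2.pos
    · exact_mod_cast hq.1.2
  push_cast at h1 h4
  have hy' : (2 : ℝ) ≤ y := by exact_mod_cast hy2
  nlinarith

open Classical in
/-- many primes `r` for which `f r` is not an exception -/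
lemma picks {C : ℕ} (hC : 1 ≤ C) {x : ℝ} {y : ℕ} {Bad : Set ℕ} {f : ℕ → ℕ}
    (hf : ∀ r r' : ℕ, y < r → r ≤ 3 * y → y < r' → r' ≤ 3 * y → f r = f r' → r = r') (hfin : Bad.Finite)
    (hcard : (Bad.ncard : ℝ) ≤ x / (C * Real.log x ^ 3)) (hy1 : 1 ≤ y)
    (hmp : (y : ℝ) / 3 ≤ (((Ioc y (3 * y)).filter Nat.Prime).card : ℝ) * Real.log (3 * y))
    (hy : x / (16 * C) ≤ y) (h4 : (3 : ℝ) * y ≤ x) (hx : 400 ≤ Real.log x) :
    (y : ℝ) / 6 ≤ (((Ioc y (3 * y)).filter (fun r => r.Prime ∧ f r ∉ Bad)).card : ℝ) * Real.log x := by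
  have hC0 : (0 : ℝ) < C := by exact_mod_cast hC
  have hyr : (1 : ℝ) ≤ y := by exact_mod_cast hy1
  have hx0 : 0 < x := by linarith
  obtain ⟨l, hl⟩ : ∃ l, l = Real.log x := ⟨_, rfl⟩
  rw [← hl] at hcard hx ⊢
  have hl0 : 0 < l := by linarith
  obtain ⟨G, hG⟩ : ∃ G, G = (Ioc y (3 * y)).filter (fun r => r.Prime ∧ f r ∉ Bad) := ⟨_, rfl⟩
  obtain ⟨B', hB'⟩ : ∃ B', B' = (Ioc y (3 * y)).filter (fun r => r.Prime ∧ f r ∈ Bad) := ⟨_, rfl⟩
  rw [← hG]
  have h1 : (B'.card : ℝ) ≤ Bad.ncard := by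
    have e1 : B'.card ≤ hfin.toFinset.card := by
      refine card_le_card_of_injOn f ?_ ?_
      · intro r hr
        rw [hB', mem_coe, mem_filter, mem_Ioc] at hr
        rw [mem_coe, Set.Finite.mem_toFinset]
        exact hr.2.2
      · intro r hr r' hr' h
        rw [hB', mem_coe, mem_filter, mem_Ioc] at hr hr'
        exact hf r r' hr.1.1 hr.1.2 hr'.1.1 hr'.1.2 h
    rw [← Set.ncard_eq_toFinset_card _ hfin] at e1
    exact_mod_cast e1
  have hsplit : (((Ioc y (3 * y)).filter Nat.Prime).card : ℝ) ≤ G.card + B'.card := by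
    have e1 : (Ioc y (3 * y)).filter Nat.Prime ⊆ G ∪ B' := by
      intro r hr
      rw [mem_filter] at hr
      rw [mem_union, hG, hB', mem_filter, mem_filter]
      by_cases h : f r ∈ Bad
      · exact Or.inr ⟨hr.1, hr.2, h⟩
      · exact Or.inl ⟨hr.1, hr.2, h⟩
    have e2 := (card_le_card e1).trans (card_union_le _ _)
    exact_mod_cast e2
  have h2 : Real.log (3 * y) ≤ l := by
    rw [hl]
    exact Real.log_le_log (by linarith) h4
  have h20 : 0 ≤ Real.log (3 * (y : ℝ)) := Real.log_nonneg (by linarith)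
  have h3 : (y : ℝ) / 3 ≤ (G.card + x / (C * l ^ 3)) * l := by
    refine hmp.trans ?_
    have e0 : 0 ≤ x / (C * l ^ 3) := by positivity
    calc (((Ioc y (3 * y)).filter Nat.Prime).card : ℝ) * Real.log (3 * y)
        ≤ (G.card + x / (C * l ^ 3)) * Real.log (3 * y) := by
          apply mul_le_mul_of_nonneg_right _ h20
          linarith [h1.trans hcard]
      _ ≤ (G.card + x / (C * l ^ 3)) * l := mul_le_mul_of_nonneg_left h2 (by positivity)
  have h5 : x / (C * l ^ 3) * l = x / C / l ^ 2 := by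
    field_simp
  rw [add_mul, h5] at h3
  have h6 : x / (16 * C) = x / C / 16 := by
    field_simp
  rw [h6] at hy
  have h7 : x / C / l ^ 2 ≤ x / C / 160000 := by
    apply div_le_div_of_nonneg_left (by positivity) (by norm_num)
    nlinarith
  linarith

/-- the size of the modulus -/
lemma size_q {ε : ℝ} (hε : 0 < ε) : ∃ ρ : ℝ, 0 < ρ ∧ ∃ C₀ : ℕ, ∀ C : ℕ, C₀ ≤ C → ∀ x : ℝ,
    (C : ℝ) ^ (5 / 4 + ε) / 4 ≤ x → (C : ℝ) ≤ x ^ (4 / 5 - ρ) := by
  obtain ⟨κ, hκ⟩ : ∃ κ, κ = 5 / 4 + ε / 2 := ⟨_, rfl⟩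
  have hκ0 : 0 < κ := by rw [hκ]; positivity
  have hκ1 : 1 / κ < 4 / 5 := by
    rw [div_lt_div_iff₀ hκ0 (by norm_num), hκ]
    linarith
  refine ⟨4 / 5 - 1 / κ, by linarith, ?_⟩
  obtain ⟨C₁, hC₁⟩ : ∃ C₁ : ℝ, ∀ x : ℝ, C₁ ≤ x → 4 ≤ x ^ (ε / 2) := by
    have h := (tendsto_rpow_atTop (show (0 : ℝ) < ε / 2 by positivity)).eventually_ge_atTop (4 : ℝ)
    exact Filter.eventually_atTop.1 h
  refine ⟨⌈C₁⌉₊ + 1, fun C hC x hx => ?_⟩
  have hC0 : (0 : ℝ) < C := by exact_mod_cast (show 0 < C by omega)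
  have hCC : C₁ ≤ C := (Nat.le_ceil C₁).trans (by exact_mod_cast (show ⌈C₁⌉₊ ≤ C by omega))
  have h1 := hC₁ C hCC
  have h2 : (C : ℝ) ^ κ ≤ x := by
    refine le_trans ?_ hx
    rw [show 5 / 4 + ε = κ + ε / 2 by rw [hκ]; ring, Real.rpow_add hC0, le_div_iff₀ (by norm_num)]
    exact mul_le_mul_of_nonneg_left h1 (by positivity)
  rw [show 4 / 5 - (4 / 5 - 1 / κ) = 1 / κ by ring]
  calc (C : ℝ) = ((C : ℝ) ^ κ) ^ (1 / κ) := by
        rw [← Real.rpow_mul hC0.le, mul_one_div_cancel hκ0.ne', Real.rpow_one]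
    _ ≤ x ^ (1 / κ) := Real.rpow_le_rpow (by positivity) h2 (by positivity)

lemma thr {ε : ℝ} (hε : 0 < ε) (K : ℝ) (f : ℝ → ℝ) (hf : ∀ C : ℝ, 1 ≤ C → f C ≤ K * C) : ∃ C₂ : ℕ, ∀ C : ℕ,
    C₂ ≤ C → f C ≤ (C : ℝ) ^ (5 / 4 + ε) := by
  obtain ⟨C₁, hC₁⟩ : ∃ C₁ : ℝ, ∀ x : ℝ, C₁ ≤ x → K ≤ x ^ (1 / 4 + ε) := by
    have h := (tendsto_rpow_atTop (show (0 : ℝ) < 1 / 4 + ε by positivity)).eventually_ge_atTop K
    exact Filter.eventually_atTop.1 h
  refine ⟨⌈C₁⌉₊ + 1, fun C hC => ?_⟩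
  have hC0 : (1 : ℝ) ≤ C := by exact_mod_cast (show 1 ≤ C by omega)
  have hCC : C₁ ≤ C := (Nat.le_ceil C₁).trans (by exact_mod_cast (show ⌈C₁⌉₊ ≤ C by omega))
  refine (hf C hC0).trans ?_
  have h1 := hC₁ C hCC
  rw [show 5 / 4 + ε = 1 + (1 / 4 + ε) by ring, Real.rpow_add (by linarith), Real.rpow_one, mul_comm K]
  exact mul_le_mul_of_nonneg_left h1 (by linarith)

/-- the range of `r` -/
lemma range_r {C : ℕ} (hC : 2 ≤ C) {e : ℤ} {E X x : ℝ} {n₂ : ℕ} (hE : E = |(e : ℝ)|)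
    (hX : 64 * (C : ℝ) + 64 + 400 * C * (n₂ + 3) ≤ X) (hx : x = 5 / 2 * E + X / 2) :
    ∃ y : ℕ, x / (16 * C) ≤ y ∧ n₂ + 2 ≤ y ∧ (3 : ℝ) * y ≤ x ∧
      ∀ r : ℕ, y < r → r ≤ 3 * y → x / 20 ≤ (C : ℝ) * r + e ∧ (C : ℝ) * r + e ≤ x ∧ (r : ℝ) ≤ x ∧
        (C : ℝ) * r + e + x / 8 ≤ 3 * E + X := by
  have hC0 : (2 : ℝ) ≤ C := by exact_mod_cast hC
  have hC0' : (0 : ℝ) < C := by linarith
  have hE0 : 0 ≤ E := by rw [hE]; exact abs_nonneg _
  have hn2 : (0 : ℝ) ≤ n₂ := Nat.cast_nonneg _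
  have hCn : 1200 * (C : ℝ) ≤ 400 * C * ((n₂ : ℝ) + 3) := by nlinarith
  rcases le_or_gt 0 e with he | he
  · have he' : (e : ℝ) = E := by
      rw [hE, abs_of_nonneg (by exact_mod_cast he)]
    have hfl : (⌊x / (8 * C)⌋₊ : ℝ) ≤ x / (8 * C) := Nat.floor_le (by
      have : 0 ≤ x := by rw [hx]; nlinarith
      positivity)
    have hfl2 : x / (8 * C) < (⌊x / (8 * C)⌋₊ : ℝ) + 1 := Nat.lt_floor_add_one _
    have hCf : (C : ℝ) * ⌊x / (8 * C)⌋₊ ≤ x / 8 := by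
      calc (C : ℝ) * ⌊x / (8 * C)⌋₊ ≤ C * (x / (8 * C)) := mul_le_mul_of_nonneg_left hfl hC0'.le
        _ = x / 8 := by field_simp
    have hCf2 : x / 8 ≤ C * ⌊x / (8 * C)⌋₊ + C := by
      calc x / 8 = C * (x / (8 * C)) := by field_simp
        _ ≤ C * ((⌊x / (8 * C)⌋₊ : ℝ) + 1) := mul_le_mul_of_nonneg_left hfl2.le hC0'.le
        _ = C * ⌊x / (8 * C)⌋₊ + C := by ring
    have hy0 : (0 : ℝ) ≤ (⌊x / (8 * C)⌋₊ : ℝ) := Nat.cast_nonneg _
    refine ⟨⌊x / (8 * C)⌋₊, ?_, ?_, ?_, ?_⟩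
    · rw [div_le_iff₀ (by positivity)]
      nlinarith
    · apply Nat.le_floor
      rw [le_div_iff₀ (by positivity)]
      push_cast
      nlinarith
    · nlinarith
    · intro r hr1 hr2
      have e2 : (r : ℝ) ≤ 3 * (⌊x / (8 * C)⌋₊ : ℝ) := by exact_mod_cast hr2
      have e4 : (⌊x / (8 * C)⌋₊ : ℝ) ≤ r := by exact_mod_cast hr1.le
      have e3 : (C : ℝ) * r ≤ 3 * (x / 8) := by
        calc (C : ℝ) * r ≤ C * (3 * ⌊x / (8 * C)⌋₊) := mul_le_mul_of_nonneg_left e2 hC0'.le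
          _ = 3 * (C * ⌊x / (8 * C)⌋₊) := by ring
          _ ≤ 3 * (x / 8) := by linarith
      have e5 : (C : ℝ) * ⌊x / (8 * C)⌋₊ ≤ C * r := mul_le_mul_of_nonneg_left e4 hC0'.le
      have e6 : (r : ℝ) ≤ C * r := by nlinarith [hy0.trans e4]
      rw [he']
      refine ⟨by linarith, by linarith, by linarith, by linarith⟩
  · have he' : (e : ℝ) = -E := by
      rw [hE, abs_of_neg (by exact_mod_cast he), neg_neg]
    obtain ⟨w, hw⟩ : ∃ w, w = 9 / 8 * E + X / 12 := ⟨_, rfl⟩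
    have hw0 : 0 ≤ w := by rw [hw]; nlinarith
    have hcl : w / C ≤ (⌈w / C⌉₊ : ℝ) := Nat.le_ceil _
    have hcl2 : (⌈w / C⌉₊ : ℝ) < w / C + 1 := Nat.ceil_lt_add_one (by positivity)
    have hCf : w ≤ C * ⌈w / C⌉₊ := by
      calc w = C * (w / C) := by field_simp
        _ ≤ C * ⌈w / C⌉₊ := mul_le_mul_of_nonneg_left hcl hC0'.le
    have hCf2 : C * (⌈w / C⌉₊ : ℝ) ≤ w + C := by
      calc C * (⌈w / C⌉₊ : ℝ) ≤ C * (w / C + 1) := mul_le_mul_of_nonneg_left hcl2.le hC0'.le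
        _ = w + C := by field_simp
    have hy0 : (0 : ℝ) ≤ (⌈w / C⌉₊ : ℝ) := Nat.cast_nonneg _
    refine ⟨⌈w / C⌉₊, ?_, ?_, ?_, ?_⟩
    · rw [div_le_iff₀ (by positivity)]
      nlinarith
    · have e1 : ((n₂ + 2 : ℕ) : ℝ) ≤ (⌈w / C⌉₊ : ℝ) := by
        refine le_trans ?_ hcl
        rw [le_div_iff₀ hC0']
        push_cast
        nlinarith
      exact_mod_cast e1
    · nlinarith
    · intro r hr1 hr2
      have e2 : (r : ℝ) ≤ 3 * (⌈w / C⌉₊ : ℝ) := by exact_mod_cast hr2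
      have e4 : (⌈w / C⌉₊ : ℝ) ≤ r := by exact_mod_cast hr1.le
      have e3 : (C : ℝ) * r ≤ 3 * (w + C) := by
        calc (C : ℝ) * r ≤ C * (3 * ⌈w / C⌉₊) := mul_le_mul_of_nonneg_left e2 hC0'.le
          _ = 3 * (C * ⌈w / C⌉₊) := by ring
          _ ≤ 3 * (w + C) := by linarith
      have e5 : (C : ℝ) * ⌈w / C⌉₊ ≤ C * r := mul_le_mul_of_nonneg_left e4 hC0'.le
      have e6 : 2 * (r : ℝ) ≤ C * r := by nlinarith [hy0.trans e4]
      rw [he']
      refine ⟨by linarith, by linarith, by linarith, by linarith⟩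

end Pool.Agent.H567.BK
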