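import Pool.Agent.H567.BK.Two

/-!
# Equations `p ± q = C r + e` in primes up to `N`: all moduli and all constants, up to few exceptional integers
-/

set_option autoImplicit false

namespace Pool.Agent.H567.BK

open Finset
open Pool.Agent.R460.GS (one_le_sing)
open Pool.Agent.H560R3.GB (sing)
open Pool.Agent.W93.PG (cnt)
open Pool.Agent.H567.PP (rad)
open Pool.Agent.H579.Dk (AllWindows pairs exceptional)

/-- the parameters -/
lemma par (n₂ : ℕ) (x₂ : ℝ) {ρ : ℝ} (hρ : 0 < ρ) : ∃ N₁ : ℝ, ∀ N : ℝ, N₁ ≤ N → 1 ≤ N ∧ 2 * x₂ ≤ N ∧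
    ∀ C : ℕ, 2 ≤ C → (C : ℝ) ≤ N ^ (4 / 5 - ρ) → ∀ E : ℝ, 0 ≤ E → E ≤ N / 5 →
      64 * (C : ℝ) + 64 + 400 * C * (n₂ + 3) ≤ N - 3 * E := by
  obtain ⟨K, hK⟩ : ∃ K : ℝ, K = 128 + 400 * ((n₂ : ℝ) + 3) := ⟨_, rfl⟩
  have hn2 : (0 : ℝ) ≤ n₂ := Nat.cast_nonneg _
  have hK0 : 0 < K := by rw [hK]; positivity
  obtain ⟨x₃, hx₃⟩ : ∃ x₃ : ℝ, ∀ x : ℝ, x₃ ≤ x → 5 / 2 * K ≤ x ^ (1 / 5 : ℝ) :=
    Filter.eventually_atTop.1 ((tendsto_rpow_atTop (show (0 : ℝ) < 1 / 5 by norm_num)).eventually_ge_atTop _)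
  refine ⟨max (max 1 (2 * x₂)) x₃, fun N hN => ?_⟩
  have hN1 : 1 ≤ N := (le_max_left _ _).trans ((le_max_left _ _).trans hN)
  refine ⟨hN1, (le_max_right _ _).trans ((le_max_left _ _).trans hN), fun C hC hCN E hE0 hE => ?_⟩
  have h3 := hx₃ N ((le_max_right _ _).trans hN)
  have hC0 : (2 : ℝ) ≤ C := by exact_mod_cast hC
  have hCN' : (C : ℝ) ≤ N ^ (4 / 5 : ℝ) :=
    hCN.trans (Real.rpow_le_rpow_of_exponent_le hN1 (by linarith))
  have h4 : K * C ≤ 2 / 5 * N := by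
    calc K * C ≤ (2 / 5 * N ^ (1 / 5 : ℝ)) * N ^ (4 / 5 : ℝ) :=
          mul_le_mul (by linarith) hCN' (by positivity) (by positivity)
      _ = 2 / 5 * (N ^ (1 / 5 : ℝ) * N ^ (4 / 5 : ℝ)) := by ring
      _ = 2 / 5 * N := by
          rw [← Real.rpow_add (by linarith)]
          norm_num
  have h5 : 64 * (C : ℝ) + 64 + 400 * C * (n₂ + 3) ≤ K * C := by
    rw [hK]
    nlinarith
  linarith

lemma bad_le {x N C l B : ℝ} (hC : 0 < C) (hx : 0 < x) (hN : N ≤ 2 * x) (hl : 400 ≤ Real.log x)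
    (hlL : Real.log x ≤ Real.log N) (hB : B ≤ N / (C * Real.log N ^ 4)) : B ≤ x / (C * Real.log x ^ 3) := by
  have hl0 : 0 < Real.log x := by linarith
  have hL0 : 0 < Real.log N := by linarith
  refine hB.trans ?_
  rw [div_le_div_iff₀ (by positivity) (by positivity)]
  have h1 : Real.log x ^ 3 ≤ Real.log N ^ 3 := pow_le_pow_left₀ hl0.le hlL 3
  calc N * (C * Real.log x ^ 3) ≤ (2 * x) * (C * Real.log N ^ 3) :=
        mul_le_mul hN (mul_le_mul_of_nonneg_left h1 hC.le) (by positivity) (by positivity)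
    _ = x * (C * (2 * Real.log N ^ 3)) := by ring
    _ ≤ x * (C * (Real.log N * Real.log N ^ 3)) := by
        apply mul_le_mul_of_nonneg_left _ hx.le
        apply mul_le_mul_of_nonneg_left _ hC.le
        exact mul_le_mul_of_nonneg_right (by linarith) (by positivity)
    _ = x * (C * Real.log N ^ 4) := by ring

/-- `p + q = C r + e` -/
theorem add_bulk {ρ : ℝ} (hρ : 0 < ρ) : ∃ k : ℕ, ∀ B : ℕ, ∃ N₀ : ℝ, ∀ N : ℝ, N₀ ≤ N →
    ∃ D : Finset ℕ, (D.card : ℝ) ≤ Real.log N ^ k ∧ (∀ d ∈ D, Real.log N ^ B < (rad d : ℝ)) ∧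
    ∀ C : ℕ, 2 ≤ C → (C : ℝ) ≤ N ^ (4 / 5 - ρ) → ∀ e : ℤ, |(e : ℝ)| ≤ N / 5 →
      (∀ d ∈ D, ¬ d ∣ Int.gcd e C) → (2 : ℤ) ∣ C + e →
      N ^ 2 / (100000 * C * Real.log N ^ 3) ≤ ((solA C e N).ncard : ℝ) := by
  classical
  obtain ⟨k, h2⟩ := Pool.Agent.H567.PP.fru_all
    (fun n => 1 / 8 * ((n : ℝ) / Real.log n ^ 2) ≤ (cnt n 0 n : ℝ)) 0 ⟨1, fun n hn _ hw => by
      have h3 := hw 0 n (by omega) le_rfl (by simp)
      have h4 := one_le_sing n
      refine le_trans ?_ h3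
      rw [Nat.cast_zero, sub_zero, mul_div_assoc]
      have h5 : 0 ≤ (n : ℝ) / Real.log n ^ 2 := by positivity
      nlinarith⟩ ρ hρ 4
  refine ⟨k, fun B => ?_⟩
  obtain ⟨x₁, h2⟩ := h2 B
  obtain ⟨n₂, h3⟩ := many_primes
  obtain ⟨x₂, h4⟩ := Filter.eventually_atTop.1 (Real.tendsto_log_atTop.eventually_ge_atTop (400 : ℝ))
  obtain ⟨N₁, hp⟩ := par n₂ x₂ hρ
  refine ⟨max x₁ N₁, fun N hN => ?_⟩
  obtain ⟨hN1, hN2, hpar'⟩ := hp N ((le_max_right _ _).trans hN)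
  obtain ⟨D, hDc, hDr, hD⟩ := h2 N ((le_max_left _ _).trans hN)
  refine ⟨D, hDc, hDr, fun C hC hCN e he hgD hpar => ?_⟩
  obtain ⟨E, hE⟩ : ∃ E : ℝ, E = |(e : ℝ)| := ⟨_, rfl⟩
  rw [← hE] at he
  have hE0 : 0 ≤ E := by rw [hE]; exact abs_nonneg _
  have hX := hpar' C hC hCN E hE0 he
  obtain ⟨X, hXd⟩ : ∃ X, X = N - 3 * E := ⟨_, rfl⟩
  rw [← hXd] at hX
  obtain ⟨x, hx⟩ : ∃ x, x = 5 / 2 * E + X / 2 := ⟨_, rfl⟩
  have hC0 : (2 : ℝ) ≤ C := by exact_mod_cast hC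
  have hC0' : (0 : ℝ) < C := by linarith
  have hNx : N ≤ 2 * x := by rw [hx, hXd]; linarith
  have hxN : x ≤ N := by rw [hx, hXd]; linarith
  have hx0 : 0 < x := by linarith
  have hlx := h4 x (by linarith)
  have hl0 : 0 < Real.log x := by linarith
  have hlN : Real.log x ≤ Real.log N := Real.log_le_log hx0 hxN
  have hL0 : 0 < Real.log N := by linarith
  obtain ⟨hfin, hcard⟩ := hD C (by omega) hCN e hgD
  obtain ⟨Bad, hBad⟩ : ∃ Bad : Set ℕ, Bad = {n : ℕ | 0 < n ∧ (n : ℝ) ≤ N ∧ 2 ∣ n ∧ (n : ℤ) ≡ e [ZMOD C] ∧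
    ¬ 1 / 8 * ((n : ℝ) / Real.log n ^ 2) ≤ (cnt n 0 n : ℝ)} := ⟨_, rfl⟩
  rw [← hBad] at hfin hcard
  obtain ⟨y, hy1, hy2, hy3', hy3⟩ := range_r (C := C) (e := e) (E := E) (X := X) (x := x) (n₂ := n₂) hC hE hX hx
  have hpk := picks (C := C) (x := x) (y := y) (Bad := Bad)
    (f := fun r => ((C : ℤ) * r + e).toNat) (by omega) (by
      intro r r' k1 k2 k3 k4 h
      have l1 : (0 : ℤ) < C * r + e := by
        have := (hy3 r k1 k2).1
        have : (0 : ℝ) < (C : ℝ) * r + e := by linarith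
        exact_mod_cast this
      have l2 : (0 : ℤ) < C * r' + e := by
        have := (hy3 r' k3 k4).1
        have : (0 : ℝ) < (C : ℝ) * r' + e := by linarith
        exact_mod_cast this
      have l3 : (C : ℤ) * r + e = C * r' + e := by
        have l4 : (((C : ℤ) * r + e).toNat : ℤ) = (((C : ℤ) * r' + e).toNat : ℤ) := by exact_mod_cast h
        rwa [Int.toNat_of_nonneg l1.le, Int.toNat_of_nonneg l2.le] at l4
      have l5 : (C : ℤ) * r = C * r' := by linarith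
      have l6 := mul_left_cancel₀ (show (C : ℤ) ≠ 0 by exact_mod_cast (show C ≠ 0 by omega)) l5
      exact_mod_cast l6) hfin (bad_le (l := 0) hC0' hx0 hNx hlx hlN hcard) (by omega) (h3 y (by omega)) hy1 hy3' hlx
  have hpk' := hpk.trans (mul_le_mul_of_nonneg_left hlN (Nat.cast_nonneg _))
  refine final_arith (x := x) (y := y) (l := Real.log N) hC0' hx0 hL0 le_rfl (by linarith) hNx hy1 hpk' ?_
  refine count_sol (finA C e N) _
    (fun r => (Ioc 0 ((C : ℤ) * r + e).toNat).filter (fun p => p.Prime ∧ (((C : ℤ) * r + e).toNat - p).Prime))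
    (fun r q => ((C : ℤ) * r + e).toNat - q) (x / (160 * Real.log N ^ 2)) ?_ ?_
  · intro r hr
    rw [mem_filter, mem_Ioc] at hr
    obtain ⟨⟨hr1, hr2⟩, hrp, hr3⟩ := hr
    obtain ⟨l1, l2, l3, -⟩ := hy3 r hr1 hr2
    have l0 : (0 : ℝ) < (C : ℝ) * r + e := by linarith
    have l1' : (0 : ℤ) < C * r + e := by exact_mod_cast l0
    obtain ⟨n, hn⟩ : ∃ n : ℕ, n = ((C : ℤ) * r + e).toNat := ⟨_, rfl⟩
    have hnZ : (n : ℤ) = C * r + e := by rw [hn, Int.toNat_of_nonneg l1'.le]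
    have hnR : (n : ℝ) = C * r + e := by exact_mod_cast hnZ
    have hodd : r % 2 = 1 := (hrp.eq_two_or_odd).resolve_left (by omega)
    have hn20 : x / 20 ≤ (n : ℝ) := by rw [hnR]; exact l1
    have hnx : (n : ℝ) ≤ N := by rw [hnR]; linarith
    have hmem : 1 / 8 * ((n : ℝ) / Real.log n ^ 2) ≤ (cnt n 0 n : ℝ) := by
      by_contra hcon
      apply hr3
      rw [hBad]
      show 0 < ((C : ℤ) * r + e).toNat ∧ _
      rw [← hn]
      refine ⟨by omega, hnx, ?_, ?_, hcon⟩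
      · have m1 : (2 : ℤ) ∣ (n : ℤ) := by
          rw [hnZ]
          exact even_n hpar hodd
        exact_mod_cast m1
      · rw [hnZ]
        exact (Int.modEq_iff_dvd.2 ⟨-r, by ring⟩)
    rw [← hn]
    have hcc : (cnt n 0 n : ℝ) = (((Ioc 0 n).filter (fun p => p.Prime ∧ (n - p).Prime)).card : ℝ) := rfl
    rw [← hcc]
    refine le_trans ?_ hmem
    have hx100 : 400 < x := by
      have := Real.log_le_sub_one_of_pos hx0
      linarith
    have hn1 : 1 < (n : ℝ) := by linarith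
    have hln : 0 < Real.log n := Real.log_pos hn1
    have hlnx : Real.log n ≤ Real.log N := Real.log_le_log (by linarith) hnx
    have e1 : (n : ℝ) / Real.log N ^ 2 ≤ (n : ℝ) / Real.log n ^ 2 := by
      apply div_le_div_of_nonneg_left (by linarith) (by positivity)
      exact pow_le_pow_left₀ hln.le hlnx 2
    have e2 : x / 20 / Real.log N ^ 2 ≤ (n : ℝ) / Real.log N ^ 2 := by
      apply div_le_div_of_nonneg_right hn20 (by positivity)
    have e3 : x / (160 * Real.log N ^ 2) = 1 / 8 * (x / 20 / Real.log N ^ 2) := by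
      field_simp
      norm_num
    rw [e3]
    linarith
  · intro r hr q hq
    rw [mem_filter, mem_Ioc] at hr hq
    obtain ⟨⟨hr1, hr2⟩, hrp, -⟩ := hr
    obtain ⟨⟨hq1, hq2⟩, hqp, hqp'⟩ := hq
    obtain ⟨l1, l2, l3, -⟩ := hy3 r hr1 hr2
    have l0 : (0 : ℝ) < (C : ℝ) * r + e := by linarith
    have l1' : (0 : ℤ) < C * r + e := by exact_mod_cast l0
    obtain ⟨n, hn⟩ : ∃ n : ℕ, n = ((C : ℤ) * r + e).toNat := ⟨_, rfl⟩
    have hnZ : (n : ℤ) = C * r + e := by rw [hn, Int.toNat_of_nonneg l1'.le]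
    have hnR : (n : ℝ) = C * r + e := by exact_mod_cast hnZ
    have hnx : (n : ℝ) ≤ x := by rw [hnR]; exact l2
    rw [← hn] at hq2 hqp' ⊢
    refine ⟨hqp', hqp, hrp, ?_, ?_, ?_, ?_⟩
    · rw [← hnZ]
      push_cast [Nat.cast_sub hq2]
      ring
    · have : ((n - q : ℕ) : ℝ) ≤ n := by exact_mod_cast Nat.sub_le n q
      show ((n - q : ℕ) : ℝ) ≤ N
      linarith
    · have : (q : ℝ) ≤ n := by exact_mod_cast hq2
      show (q : ℝ) ≤ N
      linarith
    · show (r : ℝ) ≤ N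
      linarith

/-- `p - q = C r + e` -/
theorem sub_bulk {ρ : ℝ} (hρ : 0 < ρ) : ∃ k : ℕ, ∀ B : ℕ, ∃ N₀ : ℝ, ∀ N : ℝ, N₀ ≤ N →
    ∃ D : Finset ℕ, (D.card : ℝ) ≤ Real.log N ^ k ∧ (∀ d ∈ D, Real.log N ^ B < (rad d : ℝ)) ∧
    ∀ C : ℕ, 2 ≤ C → (C : ℝ) ≤ N ^ (4 / 5 - ρ) → ∀ e : ℤ, |(e : ℝ)| ≤ N / 5 →
      (∀ d ∈ D, ¬ d ∣ C) → (2 : ℤ) ∣ C + e →
      N ^ 2 / (100000 * C * Real.log N ^ 3) ≤ ((solS C e N).ncard : ℝ) := by
  classical
  obtain ⟨k, h2⟩ := Pool.Agent.H579.R.pairs_fewR ρ hρ 4 0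
  refine ⟨k, fun B => ?_⟩
  obtain ⟨x₁, h2⟩ := h2 B
  obtain ⟨n₂, h3⟩ := many_primes
  obtain ⟨x₂, h4⟩ := Filter.eventually_atTop.1 (Real.tendsto_log_atTop.eventually_ge_atTop (400 : ℝ))
  obtain ⟨N₁, hp⟩ := par n₂ x₂ hρ
  refine ⟨max x₁ N₁, fun N hN => ?_⟩
  obtain ⟨hN1, hN2, hpar'⟩ := hp N ((le_max_right _ _).trans hN)
  obtain ⟨D, hDc, hDr, hD⟩ := h2 N ((le_max_left _ _).trans hN)
  refine ⟨D, hDc, hDr, fun C hC hCN e he hgD hpar => ?_⟩
  obtain ⟨E, hE⟩ : ∃ E : ℝ, E = |(e : ℝ)| := ⟨_, rfl⟩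
  rw [← hE] at he
  have hE0 : 0 ≤ E := by rw [hE]; exact abs_nonneg _
  have hX := hpar' C hC hCN E hE0 he
  obtain ⟨X, hXd⟩ : ∃ X, X = N - 3 * E := ⟨_, rfl⟩
  rw [← hXd] at hX
  obtain ⟨x, hx⟩ : ∃ x, x = 5 / 2 * E + X / 2 := ⟨_, rfl⟩
  have hC0 : (2 : ℝ) ≤ C := by exact_mod_cast hC
  have hC0' : (0 : ℝ) < C := by linarith
  have hNx : N ≤ 2 * x := by rw [hx, hXd]; linarith
  have hxN : x ≤ N := by rw [hx, hXd]; linarith
  have hx0 : 0 < x := by linarith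
  have hlx := h4 x (by linarith)
  have hl0 : 0 < Real.log x := by linarith
  have hlN : Real.log x ≤ Real.log N := Real.log_le_log hx0 hxN
  have hL0 : 0 < Real.log N := by linarith
  obtain ⟨hfin, hcard⟩ := hD C (by omega) hCN e (Or.inr hgD)
  obtain ⟨y, hy1, hy2, hy3', hy3⟩ := range_r (C := C) (e := e) (E := E) (X := X) (x := x) (n₂ := n₂) hC hE hX hx
  have hpk := picks (C := C) (x := x) (y := y) (Bad := exceptional 4 N C e)
    (f := fun r => ((C : ℤ) * r + e).toNat) (by omega) (by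
      intro r r' k1 k2 k3 k4 h
      have l1 : (0 : ℤ) < C * r + e := by
        have := (hy3 r k1 k2).1
        have : (0 : ℝ) < (C : ℝ) * r + e := by linarith
        exact_mod_cast this
      have l2 : (0 : ℤ) < C * r' + e := by
        have := (hy3 r' k3 k4).1
        have : (0 : ℝ) < (C : ℝ) * r' + e := by linarith
        exact_mod_cast this
      have l3 : (C : ℤ) * r + e = C * r' + e := by
        have l4 : (((C : ℤ) * r + e).toNat : ℤ) = (((C : ℤ) * r' + e).toNat : ℤ) := by exact_mod_cast h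
        rwa [Int.toNat_of_nonneg l1.le, Int.toNat_of_nonneg l2.le] at l4
      have l5 : (C : ℤ) * r = C * r' := by linarith
      have l6 := mul_left_cancel₀ (show (C : ℤ) ≠ 0 by exact_mod_cast (show C ≠ 0 by omega)) l5
      exact_mod_cast l6) hfin (bad_le (l := 0) hC0' hx0 hNx hlx hlN hcard) (by omega) (h3 y (by omega)) hy1 hy3' hlx
  have hpk' := hpk.trans (mul_le_mul_of_nonneg_left hlN (Nat.cast_nonneg _))
  refine final_arith (x := x) (y := y) (l := Real.log N) hC0' hx0 hL0 le_rfl (by linarith) hNx hy1 hpk' ?_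
  have hl4 : 16 ≤ Real.log N ^ 4 := by
    calc (16 : ℝ) = 2 ^ 4 := by norm_num
      _ ≤ Real.log N ^ 4 := pow_le_pow_left₀ (by norm_num) (by linarith) 4
  have hv8 : N / Real.log N ^ 4 ≤ x / 8 := by
    have h5 : N / Real.log N ^ 4 ≤ N / 16 := div_le_div_of_nonneg_left (by linarith) (by norm_num) hl4
    linarith
  refine count_sol (finS C e N) _
    (fun r => (Finset.range (⌊x / 8⌋₊ + 1)).filter
      (fun p => p.Prime ∧ (p + ((C : ℤ) * r + e).toNat).Prime))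
    (fun r q => q + ((C : ℤ) * r + e).toNat) (x / (160 * Real.log N ^ 2)) ?_ ?_
  · intro r hr
    rw [mem_filter, mem_Ioc] at hr
    obtain ⟨⟨hr1, hr2⟩, hrp, hr3⟩ := hr
    obtain ⟨l1, l2, l3, -⟩ := hy3 r hr1 hr2
    have l0 : (0 : ℝ) < (C : ℝ) * r + e := by linarith
    have l1' : (0 : ℤ) < C * r + e := by exact_mod_cast l0
    obtain ⟨n, hn⟩ : ∃ n : ℕ, n = ((C : ℤ) * r + e).toNat := ⟨_, rfl⟩
    have hnZ : (n : ℤ) = C * r + e := by rw [hn, Int.toNat_of_nonneg l1'.le]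
    have hnR : (n : ℝ) = C * r + e := by exact_mod_cast hnZ
    have hodd : r % 2 = 1 := (hrp.eq_two_or_odd).resolve_left (by omega)
    have hnx : (n : ℝ) ≤ N := by rw [hnR]; linarith
    have hwin : AllWindows 4 N n := by
      by_contra hcon
      apply hr3
      show 0 < ((C : ℤ) * r + e).toNat ∧ _
      rw [← hn]
      refine ⟨by omega, hnx, ?_, ?_, hcon⟩
      · have m1 : (2 : ℤ) ∣ (n : ℤ) := by
          rw [hnZ]
          exact even_n hpar hodd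
        exact_mod_cast m1
      · rw [hnZ]
        exact (Int.modEq_iff_dvd.2 ⟨-r, by ring⟩)
    rw [← hn]
    have h5 := hwin 0 (x / 8) le_rfl (by linarith) (by rw [sub_zero]; exact hv8)
    have h6 : 1 ≤ sing n := one_le_sing n
    have h7 : (pairs n 0 (x / 8) : ℝ) ≤
        (((Finset.range (⌊x / 8⌋₊ + 1)).filter (fun p => p.Prime ∧ (p + n).Prime)).card : ℝ) := by
      have : pairs n 0 (x / 8) ≤
          (((Finset.range (⌊x / 8⌋₊ + 1)).filter (fun p => p.Prime ∧ (p + n).Prime)).card) := by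
        unfold pairs
        rw [← Set.ncard_coe_finset]
        apply Set.ncard_le_ncard _ (Finset.finite_toSet _)
        rintro p ⟨k1, k2, k3, k4⟩
        rw [mem_coe, mem_filter, mem_range]
        exact ⟨Nat.lt_succ_of_le (Nat.le_floor k4), k1, k2⟩
      exact_mod_cast this
    refine le_trans ?_ (h5.trans h7)
    rw [sub_zero]
    have e1 : x / (160 * Real.log N ^ 2) ≤ 1 / 8 * (x / 8 / Real.log N ^ 2) := by
      have e2 : 1 / 8 * (x / 8 / Real.log N ^ 2) = x / (64 * Real.log N ^ 2) := by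
        field_simp
        norm_num
      rw [e2]
      apply div_le_div_of_nonneg_left hx0.le (by positivity)
      have : 0 ≤ Real.log N ^ 2 := by positivity
      linarith
    refine e1.trans ?_
    have e3 : 0 ≤ x / 8 / Real.log N ^ 2 := by positivity
    have e4 : sing n * (x / 8) / Real.log N ^ 2 = sing n * (x / 8 / Real.log N ^ 2) := by ring
    rw [e4]
    nlinarith
  · intro r hr q hq
    rw [mem_filter, mem_Ioc] at hr
    rw [mem_filter, mem_range] at hq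
    obtain ⟨⟨hr1, hr2⟩, hrp, -⟩ := hr
    obtain ⟨hq1, hqp, hqp'⟩ := hq
    obtain ⟨l1, l2, l3, l4⟩ := hy3 r hr1 hr2
    have l0 : (0 : ℝ) < (C : ℝ) * r + e := by linarith
    have l1' : (0 : ℤ) < C * r + e := by exact_mod_cast l0
    obtain ⟨n, hn⟩ : ∃ n : ℕ, n = ((C : ℤ) * r + e).toNat := ⟨_, rfl⟩
    have hnZ : (n : ℤ) = C * r + e := by rw [hn, Int.toNat_of_nonneg l1'.le]
    have hnR : (n : ℝ) = C * r + e := by exact_mod_cast hnZ
    have hq8 : (q : ℝ) ≤ x / 8 :=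
      le_trans (by exact_mod_cast (show q ≤ ⌊x / 8⌋₊ by omega)) (Nat.floor_le (by linarith))
    rw [← hn] at hqp' ⊢
    refine ⟨hqp', hqp, hrp, ?_, ?_, ?_, ?_⟩
    · rw [← hnZ]
      push_cast
      ring
    · show ((q + n : ℕ) : ℝ) ≤ N
      push_cast
      rw [hnR]
      linarith
    · show (q : ℝ) ≤ N
      linarith
    · show (r : ℝ) ≤ N
      linarith

end Pool.Agent.H567.BK
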