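import Pool.Agent.H567.BK.One
import Pool.Agent.H579.R.PairMainR
import Pool.Agent.H579.R.Reg

/-!
# Equations `p ± q = C r + e` in small primes: the expected number of solutions
-/

set_option autoImplicit false

namespace Pool.Agent.H567.BK

open Finset
open Pool.Agent.R460.GS (one_le_sing)
open Pool.Agent.H560R3.GB (sing)
open Pool.Agent.W93.PG (cnt)
open Pool.Agent.H567.PP (rad)
open Pool.Agent.H579.Dk (AllWindows pairs exceptional)

/-- the prime solutions of `p + q = C r + e` up to `H` -/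
def solA (C : ℕ) (e : ℤ) (H : ℝ) : Set (ℕ × ℕ × ℕ) :=
  {t | t.1.Prime ∧ t.2.1.Prime ∧ t.2.2.Prime ∧ (t.1 : ℤ) + t.2.1 = C * t.2.2 + e ∧
    (t.1 : ℝ) ≤ H ∧ (t.2.1 : ℝ) ≤ H ∧ (t.2.2 : ℝ) ≤ H}

/-- the prime solutions of `p - q = C r + e` up to `H` -/
def solS (C : ℕ) (e : ℤ) (H : ℝ) : Set (ℕ × ℕ × ℕ) :=
  {t | t.1.Prime ∧ t.2.1.Prime ∧ t.2.2.Prime ∧ (t.1 : ℤ) - t.2.1 = C * t.2.2 + e ∧
    (t.1 : ℝ) ≤ H ∧ (t.2.1 : ℝ) ≤ H ∧ (t.2.2 : ℝ) ≤ H}

lemma fin_box (H : ℝ) (S : Set (ℕ × ℕ × ℕ))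
    (hS : ∀ t ∈ S, (t.1 : ℝ) ≤ H ∧ (t.2.1 : ℝ) ≤ H ∧ (t.2.2 : ℝ) ≤ H) : S.Finite := by
  refine Set.Finite.subset ((Set.finite_Iic ⌊H⌋₊).prod ((Set.finite_Iic ⌊H⌋₊).prod (Set.finite_Iic ⌊H⌋₊))) ?_
  intro t ht
  obtain ⟨h1, h2, h3⟩ := hS t ht
  exact ⟨Nat.le_floor h1, Nat.le_floor h2, Nat.le_floor h3⟩

lemma finA (C : ℕ) (e : ℤ) (H : ℝ) : (solA C e H).Finite := fin_box H _ fun _ ht => ht.2.2.2.2
lemma finS (C : ℕ) (e : ℤ) (H : ℝ) : (solS C e H).Finite := fin_box H _ fun _ ht => ht.2.2.2.2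

/-- counting the solutions -/
lemma count_sol {S : Set (ℕ × ℕ × ℕ)} (hS : S.Finite) (R : Finset ℕ) (F : ℕ → Finset ℕ) (g : ℕ → ℕ → ℕ) (M : ℝ)
    (hF : ∀ r ∈ R, M ≤ ((F r).card : ℝ)) (hmem : ∀ r ∈ R, ∀ q ∈ F r, (g r q, q, r) ∈ S) :
    (R.card : ℝ) * M ≤ (S.ncard : ℝ) := by
  classical
  have h1 : (R.sigma F).card ≤ hS.toFinset.card := by
    refine card_le_card_of_injOn (fun t => (g t.1 t.2, t.2, t.1)) ?_ ?_
    · rintro ⟨r, q⟩ ht
      rw [mem_coe, mem_sigma] at ht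
      rw [mem_coe, Set.Finite.mem_toFinset]
      exact hmem r ht.1 q ht.2
    · rintro ⟨r, q⟩ _ ⟨r', q'⟩ _ h
      simp only [Prod.mk.injEq] at h
      obtain ⟨-, h2, h3⟩ := h
      subst h2
      subst h3
      rfl
  rw [← Set.ncard_eq_toFinset_card _ hS, card_sigma] at h1
  have h2 : (R.card : ℝ) * M ≤ ((∑ r ∈ R, (F r).card : ℕ) : ℝ) := by
    push_cast
    rw [← nsmul_eq_mul]
    exact card_nsmul_le_sum R _ M hF
  refine h2.trans ?_
  exact_mod_cast h1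

lemma final_arith {C x y H l L Rc S : ℝ} (hC : 0 < C) (hx : 0 < x) (hl : 0 < l) (hlL : l ≤ L) (hH : 0 ≤ H)
    (hxH : H ≤ 2 * x) (hy : x / (16 * C) ≤ y) (hR : y / 6 ≤ Rc * l) (hS : Rc * (x / (160 * l ^ 2)) ≤ S) :
    H ^ 2 / (100000 * C * L ^ 3) ≤ S := by
  have h1 : x / (96 * C * l) ≤ Rc := by
    rw [div_le_iff₀ (by positivity)]
    rw [div_le_iff₀ (by positivity)] at hy
    calc x ≤ y * (16 * C) := hy
      _ = (y / 6) * (96 * C) := by ring
      _ ≤ (Rc * l) * (96 * C) := mul_le_mul_of_nonneg_right hR (by positivity)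
      _ = Rc * (96 * C * l) := by ring
  have h2 : x / (96 * C * l) * (x / (160 * l ^ 2)) ≤ S :=
    (mul_le_mul_of_nonneg_right h1 (by positivity)).trans hS
  refine le_trans ?_ h2
  have h3 : H ^ 2 ≤ (2 * x) ^ 2 := pow_le_pow_left₀ hH hxH 2
  have h4 : l ^ 3 ≤ L ^ 3 := pow_le_pow_left₀ hl.le hlL 3
  calc H ^ 2 / (100000 * C * L ^ 3) ≤ (2 * x) ^ 2 / (100000 * C * l ^ 3) := by
        apply div_le_div₀ (by positivity) h3 (by positivity)
        exact mul_le_mul_of_nonneg_left h4 (by positivity)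
    _ ≤ x / (96 * C * l) * (x / (160 * l ^ 2)) := by
        rw [div_mul_div_comm, div_le_div_iff₀ (by positivity) (by positivity)]
        have : 0 ≤ x ^ 2 * C * l ^ 3 := by positivity
        nlinarith

/-- the number `C r + e` is even -/
lemma even_n {C r : ℕ} {e : ℤ} (hpar : (2 : ℤ) ∣ C + e) (hodd : r % 2 = 1) : (2 : ℤ) ∣ C * r + e := by
  obtain ⟨k, hk⟩ := hpar
  have m2 : (r : ℤ) = 2 * (r / 2 : ℕ) + 1 := by
    have := Nat.div_add_mod r 2
    omega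
  refine ⟨C * (r / 2 : ℕ) + k, ?_⟩
  rw [m2]
  linear_combination hk

/-- `p + q = C r + e` -/
theorem add_count {ε : ℝ} (hε : 0 < ε) (T : ℕ) : ∃ C₀ : ℕ, ∀ C : ℕ, C₀ ≤ C → ∀ e : ℤ,
    (rad (Int.gcd e C) : ℝ) ≤ Real.log C ^ T → (2 : ℤ) ∣ C + e →
    ∀ H : ℝ, H = 3 * |(e : ℝ)| + (C : ℝ) ^ (5 / 4 + ε) →
      H ^ 2 / (100000 * C * Real.log H ^ 3) ≤ ((solA C e H).ncard : ℝ) := by
  classical
  obtain ⟨ρ, hρ, C₁, h1⟩ := size_q hε
  obtain ⟨c, h2⟩ := Pool.Agent.H567.PP.fru_all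
    (fun n => 1 / 8 * ((n : ℝ) / Real.log n ^ 2) ≤ (cnt n 0 n : ℝ)) 0 ⟨1, fun n hn _ hw => by
      have h3 := hw 0 n (by omega) le_rfl (by simp)
      have h4 := one_le_sing n
      refine le_trans ?_ h3
      rw [Nat.cast_zero, sub_zero, mul_div_assoc]
      have h5 : 0 ≤ (n : ℝ) / Real.log n ^ 2 := by positivity
      nlinarith⟩ ρ hρ 3
  obtain ⟨x₁, h2⟩ := h2 T
  obtain ⟨n₂, h3⟩ := many_primes
  obtain ⟨x₂, h4⟩ := Filter.eventually_atTop.1 (Real.tendsto_log_atTop.eventually_ge_atTop (400 : ℝ))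
  obtain ⟨C₂, hC₂⟩ : ∃ C₂ : ℕ, ∀ C : ℕ, C₂ ≤ C →
      64 * (C : ℝ) + 64 + 8 * |x₁| + 8 * |x₂| + 400 * C * (n₂ + 3) ≤ (C : ℝ) ^ (5 / 4 + ε) := by
    exact thr hε (64 + 64 + 8 * |x₁| + 8 * |x₂| + 400 * (n₂ + 3))
      (fun C => 64 * C + 64 + 8 * |x₁| + 8 * |x₂| + 400 * C * (n₂ + 3)) (by
      intro C hC
      have a1 := abs_nonneg x₁
      have a2 := abs_nonneg x₂
      nlinarith [mul_nonneg (sub_nonneg.2 hC) a1, mul_nonneg (sub_nonneg.2 hC) a2])
  refine ⟨max C₁ C₂ + 2, fun C hC e hg hpar H hH => ?_⟩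
  have hCC1 : C₁ ≤ C := (le_max_left C₁ C₂).trans (by omega)
  have hX := hC₂ C ((le_max_right C₁ C₂).trans (by omega))
  obtain ⟨X, hXd⟩ : ∃ X, X = (C : ℝ) ^ (5 / 4 + ε) := ⟨_, rfl⟩
  rw [← hXd] at hX hH
  have hC0 : (2 : ℝ) ≤ C := by exact_mod_cast (show 2 ≤ C by omega)
  have hC0' : (0 : ℝ) < C := by linarith
  obtain ⟨E, hE⟩ : ∃ E : ℝ, E = |(e : ℝ)| := ⟨_, rfl⟩
  rw [← hE] at hH
  have hE0 : 0 ≤ E := by rw [hE]; exact abs_nonneg _
  obtain ⟨x, hx⟩ : ∃ x, x = 5 / 2 * E + X / 2 := ⟨_, rfl⟩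
  have a1 := abs_nonneg x₁
  have a2 := abs_nonneg x₂
  have a1' := le_abs_self x₁
  have a2' := le_abs_self x₂
  have hn2 : (0 : ℝ) ≤ n₂ := Nat.cast_nonneg _
  have hCn : 0 ≤ 400 * C * ((n₂ : ℝ) + 3) := by positivity
  have hxx1 : x₁ ≤ x := by linarith
  have hxx2 : x₂ ≤ x := by linarith
  have hx0 : 0 < x := by linarith
  have hlx := h4 x hxx2
  have hl0 : 0 < Real.log x := by linarith
  have hqx := h1 C hCC1 x (by rw [← hXd]; linarith)
  have hxH : x ≤ H := by rw [hH, hx]; linarith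
  obtain ⟨D, -, hD1, hD⟩ := h2 x hxx1
  have hgD : ∀ d ∈ D, ¬ d ∣ Int.gcd e C := by
    intro d hd hdv
    have k1 := hD1 d hd
    have k2 : (rad d : ℝ) ≤ rad (Int.gcd e C) := by
      exact_mod_cast Pool.Agent.H579.R.rad_dvd_le (by
        intro h0
        rw [Int.gcd_eq_zero_iff] at h0
        have : C = 0 := by exact_mod_cast h0.2
        omega) hdv
    have k3 : Real.log C ^ T ≤ Real.log x ^ T :=
      pow_le_pow_left₀ (Real.log_nonneg (by linarith)) (Real.log_le_log hC0' (by linarith)) _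
    linarith
  obtain ⟨hfin, hcard⟩ := hD C (by omega) hqx e hgD
  obtain ⟨Bad, hBad⟩ : ∃ Bad : Set ℕ, Bad = {n : ℕ | 0 < n ∧ (n : ℝ) ≤ x ∧ 2 ∣ n ∧ (n : ℤ) ≡ e [ZMOD C] ∧
    ¬ 1 / 8 * ((n : ℝ) / Real.log n ^ 2) ≤ (cnt n 0 n : ℝ)} := ⟨_, rfl⟩
  rw [← hBad] at hfin hcard
  obtain ⟨y, hy1, hy2, hy3', hy3⟩ := range_r (C := C) (e := e) (E := E) (X := X) (x := x) (n₂ := n₂) (by omega) hE
    (by linarith) hx
  have hpk := picks (C := C) (x := x) (y := y) (Bad := Bad)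
    (f := fun r => ((C : ℤ) * r + e).toNat) (by omega) (by
      intro r r' k1 k2 k3 k4 h
      have l1 : (0 : ℤ) < C * r + e := by
        have := (hy3 r k1 k2).1
        have : (0 : ℝ) < (C : ℝ) * r + e := by linarith
        exact_mod_cast this
      have l2 : (0 : ℤ) < C * r' + e := by
        have := (hy3 r' k3 k4).1
        have : (0 : ℝ) < (C : ℝ) * r' + e := by linarith
        exact_mod_cast this
      have l3 : (C : ℤ) * r + e = C * r' + e := by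
        have l4 : (((C : ℤ) * r + e).toNat : ℤ) = (((C : ℤ) * r' + e).toNat : ℤ) := by exact_mod_cast h
        rwa [Int.toNat_of_nonneg l1.le, Int.toNat_of_nonneg l2.le] at l4
      have l5 : (C : ℤ) * r = C * r' := by linarith
      have l6 := mul_left_cancel₀ (show (C : ℤ) ≠ 0 by exact_mod_cast (show C ≠ 0 by omega)) l5
      exact_mod_cast l6) hfin hcard (by omega) (h3 y (by omega)) hy1 hy3' hlx
  refine final_arith (x := x) (y := y) (l := Real.log x) hC0' hx0 hl0 (Real.log_le_log hx0 hxH) (by linarith)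
    (by rw [hH, hx]; linarith) hy1 hpk ?_
  refine count_sol (finA C e H) _
    (fun r => (Ioc 0 ((C : ℤ) * r + e).toNat).filter (fun p => p.Prime ∧ (((C : ℤ) * r + e).toNat - p).Prime))
    (fun r q => ((C : ℤ) * r + e).toNat - q) (x / (160 * Real.log x ^ 2)) ?_ ?_
  · intro r hr
    rw [mem_filter, mem_Ioc] at hr
    obtain ⟨⟨hr1, hr2⟩, hrp, hr3⟩ := hr
    obtain ⟨l1, l2, l3, -⟩ := hy3 r hr1 hr2
    have l0 : (0 : ℝ) < (C : ℝ) * r + e := by linarith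
    have l1' : (0 : ℤ) < C * r + e := by exact_mod_cast l0
    obtain ⟨n, hn⟩ : ∃ n : ℕ, n = ((C : ℤ) * r + e).toNat := ⟨_, rfl⟩
    have hnZ : (n : ℤ) = C * r + e := by rw [hn, Int.toNat_of_nonneg l1'.le]
    have hnR : (n : ℝ) = C * r + e := by exact_mod_cast hnZ
    have hodd : r % 2 = 1 := (hrp.eq_two_or_odd).resolve_left (by omega)
    have hn20 : x / 20 ≤ (n : ℝ) := by rw [hnR]; exact l1
    have hnx : (n : ℝ) ≤ x := by rw [hnR]; exact l2
    have hmem : 1 / 8 * ((n : ℝ) / Real.log n ^ 2) ≤ (cnt n 0 n : ℝ) := by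
      by_contra hcon
      apply hr3
      rw [hBad]
      show 0 < ((C : ℤ) * r + e).toNat ∧ _
      rw [← hn]
      refine ⟨by omega, hnx, ?_, ?_, hcon⟩
      · have m1 : (2 : ℤ) ∣ (n : ℤ) := by
          rw [hnZ]
          exact even_n hpar hodd
        exact_mod_cast m1
      · rw [hnZ]
        exact (Int.modEq_iff_dvd.2 ⟨-r, by ring⟩)
    rw [← hn]
    have hcc : (cnt n 0 n : ℝ) = (((Ioc 0 n).filter (fun p => p.Prime ∧ (n - p).Prime)).card : ℝ) := rfl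
    rw [← hcc]
    refine le_trans ?_ hmem
    have hx100 : 400 < x := by
      have := Real.log_le_sub_one_of_pos hx0
      linarith
    have hn1 : 1 < (n : ℝ) := by linarith
    have hln : 0 < Real.log n := Real.log_pos hn1
    have hlnx : Real.log n ≤ Real.log x := Real.log_le_log (by linarith) hnx
    have e1 : (n : ℝ) / Real.log x ^ 2 ≤ (n : ℝ) / Real.log n ^ 2 := by
      apply div_le_div_of_nonneg_left (by linarith) (by positivity)
      exact pow_le_pow_left₀ hln.le hlnx 2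
    have e2 : x / 20 / Real.log x ^ 2 ≤ (n : ℝ) / Real.log x ^ 2 := by
      apply div_le_div_of_nonneg_right hn20 (by positivity)
    have e3 : x / (160 * Real.log x ^ 2) = 1 / 8 * (x / 20 / Real.log x ^ 2) := by
      field_simp
      norm_num
    rw [e3]
    linarith
  · intro r hr q hq
    rw [mem_filter, mem_Ioc] at hr hq
    obtain ⟨⟨hr1, hr2⟩, hrp, -⟩ := hr
    obtain ⟨⟨hq1, hq2⟩, hqp, hqp'⟩ := hq
    obtain ⟨l1, l2, l3, -⟩ := hy3 r hr1 hr2
    have l0 : (0 : ℝ) < (C : ℝ) * r + e := by linarith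
    have l1' : (0 : ℤ) < C * r + e := by exact_mod_cast l0
    obtain ⟨n, hn⟩ : ∃ n : ℕ, n = ((C : ℤ) * r + e).toNat := ⟨_, rfl⟩
    have hnZ : (n : ℤ) = C * r + e := by rw [hn, Int.toNat_of_nonneg l1'.le]
    have hnR : (n : ℝ) = C * r + e := by exact_mod_cast hnZ
    have hnx : (n : ℝ) ≤ x := by rw [hnR]; exact l2
    rw [← hn] at hq2 hqp' ⊢
    refine ⟨hqp', hqp, hrp, ?_, ?_, ?_, ?_⟩
    · rw [← hnZ]
      push_cast [Nat.cast_sub hq2]
      ring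
    · have : ((n - q : ℕ) : ℝ) ≤ n := by exact_mod_cast Nat.sub_le n q
      show ((n - q : ℕ) : ℝ) ≤ H
      linarith
    · have : (q : ℝ) ≤ n := by exact_mod_cast hq2
      show (q : ℝ) ≤ H
      linarith
    · show (r : ℝ) ≤ H
      linarith

/-- `p - q = C r + e` -/
theorem sub_count {ε : ℝ} (hε : 0 < ε) (T : ℕ) : ∃ C₀ : ℕ, ∀ C : ℕ, C₀ ≤ C → ∀ e : ℤ,
    ((Int.gcd e C : ℝ) ≤ Real.log C ^ T ∨ (rad C : ℝ) ≤ Real.log C ^ T) → (2 : ℤ) ∣ C + e →
    ∀ H : ℝ, H = 3 * |(e : ℝ)| + (C : ℝ) ^ (5 / 4 + ε) →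
      H ^ 2 / (100000 * C * Real.log H ^ 3) ≤ ((solS C e H).ncard : ℝ) := by
  classical
  obtain ⟨ρ, hρ, C₁, h1⟩ := size_q hε
  obtain ⟨c, h2⟩ := Pool.Agent.H579.R.pairs_fewR ρ hρ 3 T
  obtain ⟨x₁, h2⟩ := h2 T
  obtain ⟨n₂, h3⟩ := many_primes
  obtain ⟨x₂, h4⟩ := Filter.eventually_atTop.1 (Real.tendsto_log_atTop.eventually_ge_atTop (400 : ℝ))
  obtain ⟨C₂, hC₂⟩ : ∃ C₂ : ℕ, ∀ C : ℕ, C₂ ≤ C →
      64 * (C : ℝ) + 64 + 8 * |x₁| + 8 * |x₂| + 400 * C * (n₂ + 3) ≤ (C : ℝ) ^ (5 / 4 + ε) := by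
    exact thr hε (64 + 64 + 8 * |x₁| + 8 * |x₂| + 400 * (n₂ + 3))
      (fun C => 64 * C + 64 + 8 * |x₁| + 8 * |x₂| + 400 * C * (n₂ + 3)) (by
      intro C hC
      have a1 := abs_nonneg x₁
      have a2 := abs_nonneg x₂
      nlinarith [mul_nonneg (sub_nonneg.2 hC) a1, mul_nonneg (sub_nonneg.2 hC) a2])
  refine ⟨max C₁ C₂ + 2, fun C hC e hg hpar H hH => ?_⟩
  have hCC1 : C₁ ≤ C := (le_max_left C₁ C₂).trans (by omega)
  have hX := hC₂ C ((le_max_right C₁ C₂).trans (by omega))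
  obtain ⟨X, hXd⟩ : ∃ X, X = (C : ℝ) ^ (5 / 4 + ε) := ⟨_, rfl⟩
  rw [← hXd] at hX hH
  have hC0 : (2 : ℝ) ≤ C := by exact_mod_cast (show 2 ≤ C by omega)
  have hC0' : (0 : ℝ) < C := by linarith
  obtain ⟨E, hE⟩ : ∃ E : ℝ, E = |(e : ℝ)| := ⟨_, rfl⟩
  rw [← hE] at hH
  have hE0 : 0 ≤ E := by rw [hE]; exact abs_nonneg _
  obtain ⟨x, hx⟩ : ∃ x, x = 5 / 2 * E + X / 2 := ⟨_, rfl⟩
  have a1 := abs_nonneg x₁
  have a2 := abs_nonneg x₂
  have a1' := le_abs_self x₁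
  have a2' := le_abs_self x₂
  have hn2 : (0 : ℝ) ≤ n₂ := Nat.cast_nonneg _
  have hCn : 0 ≤ 400 * C * ((n₂ : ℝ) + 3) := by positivity
  have hxx1 : x₁ ≤ x := by linarith
  have hxx2 : x₂ ≤ x := by linarith
  have hx0 : 0 < x := by linarith
  have hlx := h4 x hxx2
  have hl0 : 0 < Real.log x := by linarith
  have hqx := h1 C hCC1 x (by rw [← hXd]; linarith)
  have hxH : x ≤ H := by rw [hH, hx]; linarith
  obtain ⟨D, -, hD1, hD⟩ := h2 x hxx1
  have k3 : Real.log C ^ T ≤ Real.log x ^ T :=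
    pow_le_pow_left₀ (Real.log_nonneg (by linarith)) (Real.log_le_log hC0' (by linarith)) _
  obtain ⟨hfin, hcard⟩ := hD C (by omega) hqx e (by
    rcases hg with hg | hg
    · exact Or.inl (hg.trans k3)
    · exact Or.inr (Pool.Agent.H579.R.reg_of_rad (by omega) hD1 (Or.inl (hg.trans k3))))
  obtain ⟨y, hy1, hy2, hy3', hy3⟩ := range_r (C := C) (e := e) (E := E) (X := X) (x := x) (n₂ := n₂) (by omega) hE
    (by linarith) hx
  have hpk := picks (C := C) (x := x) (y := y) (Bad := exceptional 3 x C e)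
    (f := fun r => ((C : ℤ) * r + e).toNat) (by omega) (by
      intro r r' k1 k2 k3 k4 h
      have l1 : (0 : ℤ) < C * r + e := by
        have := (hy3 r k1 k2).1
        have : (0 : ℝ) < (C : ℝ) * r + e := by linarith
        exact_mod_cast this
      have l2 : (0 : ℤ) < C * r' + e := by
        have := (hy3 r' k3 k4).1
        have : (0 : ℝ) < (C : ℝ) * r' + e := by linarith
        exact_mod_cast this
      have l3 : (C : ℤ) * r + e = C * r' + e := by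
        have l4 : (((C : ℤ) * r + e).toNat : ℤ) = (((C : ℤ) * r' + e).toNat : ℤ) := by exact_mod_cast h
        rwa [Int.toNat_of_nonneg l1.le, Int.toNat_of_nonneg l2.le] at l4
      have l5 : (C : ℤ) * r = C * r' := by linarith
      have l6 := mul_left_cancel₀ (show (C : ℤ) ≠ 0 by exact_mod_cast (show C ≠ 0 by omega)) l5
      exact_mod_cast l6) hfin hcard (by omega) (h3 y (by omega)) hy1 hy3' hlx
  refine final_arith (x := x) (y := y) (l := Real.log x) hC0' hx0 hl0 (Real.log_le_log hx0 hxH) (by linarith)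
    (by rw [hH, hx]; linarith) hy1 hpk ?_
  have hl3 : 8 ≤ Real.log x ^ 3 := by
    calc (8 : ℝ) = 2 ^ 3 := by norm_num
      _ ≤ Real.log x ^ 3 := pow_le_pow_left₀ (by norm_num) (by linarith) 3
  have hv8 : x / Real.log x ^ 3 ≤ x / 8 := div_le_div_of_nonneg_left hx0.le (by norm_num) hl3
  refine count_sol (finS C e H) _
    (fun r => (Finset.range (⌊x / 8⌋₊ + 1)).filter
      (fun p => p.Prime ∧ (p + ((C : ℤ) * r + e).toNat).Prime))
    (fun r q => q + ((C : ℤ) * r + e).toNat) (x / (160 * Real.log x ^ 2)) ?_ ?_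
  · intro r hr
    rw [mem_filter, mem_Ioc] at hr
    obtain ⟨⟨hr1, hr2⟩, hrp, hr3⟩ := hr
    obtain ⟨l1, l2, l3, -⟩ := hy3 r hr1 hr2
    have l0 : (0 : ℝ) < (C : ℝ) * r + e := by linarith
    have l1' : (0 : ℤ) < C * r + e := by exact_mod_cast l0
    obtain ⟨n, hn⟩ : ∃ n : ℕ, n = ((C : ℤ) * r + e).toNat := ⟨_, rfl⟩
    have hnZ : (n : ℤ) = C * r + e := by rw [hn, Int.toNat_of_nonneg l1'.le]
    have hnR : (n : ℝ) = C * r + e := by exact_mod_cast hnZ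
    have hodd : r % 2 = 1 := (hrp.eq_two_or_odd).resolve_left (by omega)
    have hnx : (n : ℝ) ≤ x := by rw [hnR]; exact l2
    have hwin : AllWindows 3 x n := by
      by_contra hcon
      apply hr3
      show 0 < ((C : ℤ) * r + e).toNat ∧ _
      rw [← hn]
      refine ⟨by omega, hnx, ?_, ?_, hcon⟩
      · have m1 : (2 : ℤ) ∣ (n : ℤ) := by
          rw [hnZ]
          exact even_n hpar hodd
        exact_mod_cast m1
      · rw [hnZ]
        exact (Int.modEq_iff_dvd.2 ⟨-r, by ring⟩)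
    rw [← hn]
    have h5 := hwin 0 (x / 8) le_rfl (by linarith) (by rw [sub_zero]; exact hv8)
    have h6 : 1 ≤ sing n := one_le_sing n
    have h7 : (pairs n 0 (x / 8) : ℝ) ≤
        (((Finset.range (⌊x / 8⌋₊ + 1)).filter (fun p => p.Prime ∧ (p + n).Prime)).card : ℝ) := by
      have : pairs n 0 (x / 8) ≤
          (((Finset.range (⌊x / 8⌋₊ + 1)).filter (fun p => p.Prime ∧ (p + n).Prime)).card) := by
        unfold pairs
        rw [← Set.ncard_coe_finset]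
        apply Set.ncard_le_ncard _ (Finset.finite_toSet _)
        rintro p ⟨k1, k2, k3, k4⟩
        rw [mem_coe, mem_filter, mem_range]
        exact ⟨Nat.lt_succ_of_le (Nat.le_floor k4), k1, k2⟩
      exact_mod_cast this
    refine le_trans ?_ (h5.trans h7)
    rw [sub_zero]
    have e1 : x / (160 * Real.log x ^ 2) ≤ 1 / 8 * (x / 8 / Real.log x ^ 2) := by
      have e2 : 1 / 8 * (x / 8 / Real.log x ^ 2) = x / (64 * Real.log x ^ 2) := by
        field_simp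
        norm_num
      rw [e2]
      apply div_le_div_of_nonneg_left hx0.le (by positivity)
      have : 0 ≤ Real.log x ^ 2 := by positivity
      linarith
    refine e1.trans ?_
    have e3 : 0 ≤ x / 8 / Real.log x ^ 2 := by positivity
    have e4 : sing n * (x / 8) / Real.log x ^ 2 = sing n * (x / 8 / Real.log x ^ 2) := by ring
    rw [e4]
    nlinarith
  · intro r hr q hq
    rw [mem_filter, mem_Ioc] at hr
    rw [mem_filter, mem_range] at hq
    obtain ⟨⟨hr1, hr2⟩, hrp, -⟩ := hr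
    obtain ⟨hq1, hqp, hqp'⟩ := hq
    obtain ⟨l1, l2, l3, l4⟩ := hy3 r hr1 hr2
    have l0 : (0 : ℝ) < (C : ℝ) * r + e := by linarith
    have l1' : (0 : ℤ) < C * r + e := by exact_mod_cast l0
    obtain ⟨n, hn⟩ : ∃ n : ℕ, n = ((C : ℤ) * r + e).toNat := ⟨_, rfl⟩
    have hnZ : (n : ℤ) = C * r + e := by rw [hn, Int.toNat_of_nonneg l1'.le]
    have hnR : (n : ℝ) = C * r + e := by exact_mod_cast hnZ
    have hq8 : (q : ℝ) ≤ x / 8 :=
      le_trans (by exact_mod_cast (show q ≤ ⌊x / 8⌋₊ by omega)) (Nat.floor_le (by linarith))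
    rw [← hn] at hqp' ⊢
    refine ⟨hqp', hqp, hrp, ?_, ?_, ?_, ?_⟩
    · rw [← hnZ]
      push_cast
      ring
    · show ((q + n : ℕ) : ℝ) ≤ H
      push_cast
      rw [hnR, hH]
      linarith
    · show (q : ℝ) ≤ H
      linarith
    · show (r : ℝ) ≤ H
      linarith

end Pool.Agent.H567.BK
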